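import Pool.Agent.K1H5.NA.Fin

set_option autoImplicit false

/-!
# Group algebras with nil augmentation ideal: reduction to residually finite groups

Let `K` be a field of prime characteristic `p`. If the augmentation ideal of `K[G]` is nil then each
infinite finitely generated subgroup `H` of `G` has an infinite residually finite quotient, the
quotient by the intersection of the normal subgroups of finite index, whose group algebra has a nil
augmentation ideal. So Q1 for `K` is equivalent to its special case for finitely generated residually
finite groups (`Pool.Agent.K1H5.NA.part3`).

Proof: if `H` is finitely generated then the augmentation ideal `ω` of `K[H]` is a finitely generated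
left ideal inside the Jacobson radical; if `H` is perfect then `ω = ω²`, so `ω = 0` by Nakayama's
lemma. If the finite residual `N` of `H` has finite index it is finitely generated, and if it is not
trivial then `N ≠ [N, N]` and `N / [N, N]` is finite (it is a finitely generated abelian `p`-group),
so `[N, N]` is a normal subgroup of finite index of `H` smaller than `N`.
-/

namespace Pool.Agent.Results.MP_f21a8b_al.ResiduallyFiniteReduction

open Pool.Agent.K1H5.NA

universe u v

theorem result (K : Type v) [Field K] (p : ℕ) [Fact p.Prime] [CharP K p] (G : Type u) [Group G]
    (h : NilAug K G) (H : Subgroup G) (hH : H.FG) (hi : Infinite H) :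
    Infinite (H ⧸ res H) ∧ ResFin (H ⧸ res H) ∧ NilAug K (H ⧸ res H) :=
  part2 K p H ((Group.fg_iff_subgroup_fg H).2 hH) (nil_sub h H) hi

end Pool.Agent.Results.MP_f21a8b_al.ResiduallyFiniteReduction
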